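import Pool.Agent.H929.BG.Stm

/-!
# BG-RedE: the rare multiplicities are removed, emptiness (helper295)
-/

set_option autoImplicit false

namespace Pool.Agent.H295.BG

open Finset Pool.Agent.H929.BW Pool.Agent.H929.BG

/-- upper bound for `PP` -/
theorem PP_le (n : ℕ) {v : ℕ} (hv : 1 ≤ v) :
    PP n v ≤ (1 + (n : ℝ)) ^ (n + 1) * (v : ℝ) ^ (n + 1) := by
  have hv1 : (1 : ℝ) ≤ v := by exact_mod_cast hv
  refine (PP_upper n (by linarith)).trans ?_
  rw [← mul_pow]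
  refine pow_le_pow_left₀ (by positivity) ?_ _
  have : (0 : ℝ) ≤ n := Nat.cast_nonneg n
  nlinarith

theorem surf_mono (n : ℕ) {A A' : Finset ℕ} (r : ℕ → ℕ) (h : A' ⊆ A) :
    surf n A' r ≤ surf n A r :=
  sum_le_sum_of_subset_of_nonneg h fun v _ _ => by positivity

theorem surf_nonneg (n : ℕ) (A : Finset ℕ) (r : ℕ → ℕ) : 0 ≤ surf n A r :=
  sum_nonneg fun v _ => by positivity

theorem mem_low {A : Finset ℕ} {u w : ℕ} : u ∈ low A w ↔ u ∈ A ∧ u < w := by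
  unfold low
  rw [mem_filter]

theorem t_RedE : S_RedE := by
  classical
  intro n K₀ hn hK₀
  set c : ℝ := (1 + (n : ℝ)) ^ (n + 1) with hc
  have hc1 : 1 ≤ c := one_le_pow₀ (by linarith [(Nat.cast_nonneg n : (0 : ℝ) ≤ n)])
  set K₁ : ℝ := 2 * K₀ with hK₁
  have hK₁1 : 1 ≤ K₁ := by linarith
  set K : ℝ := 2 * K₁ + 2 * c * K₁ + K₀ with hK
  have hcK : 0 < c * K₁ := by positivity
  refine ⟨K, by linarith, fun A r Q hQ h1A hsum => ?_⟩
  set R := ∑ w ∈ rare n K A r, (w : ℝ) ^ (n + 1) with hR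
  have hR0 : 0 ≤ R := sum_nonneg fun w _ => by positivity
  have hrare : ∀ w, w ∈ rare n K A r ↔ w ∈ A ∧ ((r w : ℝ) < K ∨ ((low A w).Nonempty ∧
      ∑ u ∈ low A w, (r u : ℝ) * (u : ℝ) ^ (n + 1) < K * (w : ℝ) ^ (n + 1))) := by
    intro w
    unfold rare
    rw [mem_filter]
  let A₁ := A.filter fun v => K₁ ≤ (r v : ℝ)
  have memA₁ : ∀ v, v ∈ A₁ ↔ v ∈ A ∧ K₁ ≤ (r v : ℝ) := fun v => mem_filter
  have hA₁A : A₁ ⊆ A := filter_subset _ _
  -- the elements which occur less than `K₁` times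
  have hfew : ∀ S : Finset ℕ, S ⊆ A → (∀ v ∈ S, (r v : ℝ) < K₁) →
      ∑ v ∈ S, (r v : ℝ) * (v : ℝ) ^ (n + 1) ≤ K₁ * R := by
    intro S hS hS1
    have h1 : ∑ v ∈ S, (r v : ℝ) * (v : ℝ) ^ (n + 1) ≤ K₁ * ∑ v ∈ S, (v : ℝ) ^ (n + 1) := by
      rw [mul_sum]
      refine sum_le_sum fun v hv => ?_
      have := (hS1 v hv).le
      gcongr
    refine h1.trans ?_
    have h2 : ∑ v ∈ S, (v : ℝ) ^ (n + 1) ≤ R := by
      refine sum_le_sum_of_subset_of_nonneg ?_ fun v _ _ => by positivity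
      intro v hv
      rw [hrare]
      exact ⟨hS hv, Or.inl ((hS1 v hv).trans_le (by linarith))⟩
    exact mul_le_mul_of_nonneg_left h2 (by linarith)
  have hPP : ∀ S : Finset ℕ, S ⊆ A → ∑ v ∈ S, (r v : ℝ) * PP n v ≤
      c * ∑ v ∈ S, (r v : ℝ) * (v : ℝ) ^ (n + 1) := by
    intro S hS
    rw [mul_sum]
    refine sum_le_sum fun v hv => ?_
    have h2 := PP_le n (h1A v (hS hv))
    calc (r v : ℝ) * PP n v ≤ (r v : ℝ) * (c * (v : ℝ) ^ (n + 1)) := by gcongr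
      _ = _ := by ring
  -- the conclusion from the cost
  have hfin : ∀ A' : Finset ℕ, A' ⊆ A₁ →
      ∑ v ∈ A₁ \ A', (r v : ℝ) * (v : ℝ) ^ (n + 1) ≤ K₁ * R →
      Q + K₀ * surf n A' r ≤ ∑ v ∈ A', r v * PP n v := by
    intro A' hA' hcost
    have e1 : ∑ v ∈ A, (r v : ℝ) * PP n v =
        ∑ v ∈ A \ A₁, (r v : ℝ) * PP n v + ∑ v ∈ A₁, (r v : ℝ) * PP n v :=
      (sum_sdiff hA₁A).symm
    have e2 : ∑ v ∈ A₁, (r v : ℝ) * PP n v =
        ∑ v ∈ A₁ \ A', (r v : ℝ) * PP n v + ∑ v ∈ A', (r v : ℝ) * PP n v :=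
      (sum_sdiff hA').symm
    have h1 := hPP (A \ A₁) sdiff_subset
    have h2 := hfew (A \ A₁) sdiff_subset (by
      intro v hv
      rw [mem_sdiff, memA₁] at hv
      by_contra hcon
      exact hv.2 ⟨hv.1, not_lt.1 hcon⟩)
    have h3 := hPP (A₁ \ A') (sdiff_subset.trans hA₁A)
    have h4 : c * ∑ v ∈ A \ A₁, (r v : ℝ) * (v : ℝ) ^ (n + 1) ≤ c * (K₁ * R) :=
      mul_le_mul_of_nonneg_left h2 (by linarith)
    have h5 : c * ∑ v ∈ A₁ \ A', (r v : ℝ) * (v : ℝ) ^ (n + 1) ≤ c * (K₁ * R) :=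
      mul_le_mul_of_nonneg_left hcost (by linarith)
    have h6 : K₀ * surf n A' r ≤ K * surf n A r :=
      mul_le_mul (by linarith) (surf_mono n r (hA'.trans hA₁A)) (surf_nonneg n A' r)
        (by linarith)
    have h7 : 2 * (c * (K₁ * R)) ≤ K * R := by
      have : 2 * (c * (K₁ * R)) = (2 * c * K₁) * R := by ring
      rw [this]
      exact mul_le_mul_of_nonneg_right (by linarith) hR0
    have h8 : Q + K * (surf n A r + R) = Q + K * surf n A r + K * R := by ring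
    rw [h8] at hsum
    linarith
  have hne : ∀ A' : Finset ℕ, Q + K₀ * surf n A' r ≤ ∑ v ∈ A', r v * PP n v → A'.Nonempty := by
    intro A' h
    by_contra hcon
    rw [not_nonempty_iff_eq_empty] at hcon
    rw [hcon, sum_empty] at h
    have := mul_nonneg (by linarith : (0 : ℝ) ≤ K₀) (surf_nonneg n ∅ r)
    linarith
  let W := A₁.filter fun w => (low A₁ w).Nonempty ∧
    ∑ u ∈ low A₁ w, (r u : ℝ) * (u : ℝ) ^ (n + 1) < K₁ * (w : ℝ) ^ (n + 1)
  have memW : ∀ w, w ∈ W ↔ w ∈ A₁ ∧ ((low A₁ w).Nonempty ∧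
    ∑ u ∈ low A₁ w, (r u : ℝ) * (u : ℝ) ^ (n + 1) < K₁ * (w : ℝ) ^ (n + 1)) := fun w => mem_filter
  have hnotW : ∀ w ∈ A₁, w ∉ W → (low A₁ w).Nonempty →
      K₁ * (w : ℝ) ^ (n + 1) ≤ ∑ u ∈ low A₁ w, (r u : ℝ) * (u : ℝ) ^ (n + 1) := by
    intro w hw hwW hlow
    by_contra hcon
    exact hwW ((memW w).2 ⟨hw, hlow, not_le.1 hcon⟩)
  rcases W.eq_empty_or_nonempty with hWe | hWne
  · -- no bad element
    have h1 := hfin A₁ (Subset.refl _) (by
      rw [sdiff_self, bot_eq_empty, sum_empty]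
      positivity)
    refine ⟨A₁, hA₁A, ⟨hne A₁ h1, fun v hv => h1A v (hA₁A hv), fun v hv => ?_, fun w hw hlow => ?_⟩,
      h1⟩
    · have := ((memA₁ v).1 hv).2
      linarith
    · refine le_trans ?_ (hnotW w hw (by rw [hWe]; exact notMem_empty w) hlow)
      gcongr
      linarith
  · -- the largest bad element
    set w₀ := W.max' hWne with hw₀
    have hw₀W : w₀ ∈ W := max'_mem W hWne
    obtain ⟨hw₀A, hlow₀, hlt₀⟩ := (memW w₀).1 hw₀W
    let A' := A₁.filter fun v => w₀ ≤ v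
    have memA' : ∀ v, v ∈ A' ↔ v ∈ A₁ ∧ w₀ ≤ v := fun v => mem_filter
    have hA'A₁ : A' ⊆ A₁ := filter_subset _ _
    have hsd : A₁ \ A' = low A₁ w₀ := by
      ext v
      rw [mem_sdiff, memA', mem_low]
      constructor
      · rintro ⟨h1, h2⟩
        refine ⟨h1, ?_⟩
        by_contra hcon
        exact h2 ⟨h1, not_lt.1 hcon⟩
      · rintro ⟨h1, h2⟩
        exact ⟨h1, fun h => by omega⟩
    have hw₀R : (w₀ : ℝ) ^ (n + 1) ≤ R := by
      by_cases hr : w₀ ∈ rare n K A r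
      · exact single_le_sum (f := fun w : ℕ => (w : ℝ) ^ (n + 1)) (fun w _ => by positivity) hr
      · have h1 : K * (w₀ : ℝ) ^ (n + 1) ≤
            ∑ u ∈ low A w₀, (r u : ℝ) * (u : ℝ) ^ (n + 1) := by
          by_contra hcon
          apply hr
          rw [hrare]
          refine ⟨hA₁A hw₀A, Or.inr ⟨?_, not_le.1 hcon⟩⟩
          obtain ⟨u, hu⟩ := hlow₀
          rw [mem_low] at hu
          exact ⟨u, mem_low.2 ⟨hA₁A hu.1, hu.2⟩⟩
        have hsub : low A₁ w₀ ⊆ low A w₀ := by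
          intro u hu
          rw [mem_low] at hu ⊢
          exact ⟨hA₁A hu.1, hu.2⟩
        have h2 := hfew (low A w₀ \ low A₁ w₀) (by
          intro u hu
          rw [mem_sdiff, mem_low] at hu
          exact hu.1.1) (by
          intro u hu
          rw [mem_sdiff, mem_low, mem_low, memA₁] at hu
          by_contra hcon
          exact hu.2 ⟨⟨hu.1.1, not_lt.1 hcon⟩, hu.1.2⟩)
        have h3 : ∑ u ∈ low A w₀, (r u : ℝ) * (u : ℝ) ^ (n + 1) =
            ∑ u ∈ low A w₀ \ low A₁ w₀, (r u : ℝ) * (u : ℝ) ^ (n + 1) +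
            ∑ u ∈ low A₁ w₀, (r u : ℝ) * (u : ℝ) ^ (n + 1) := (sum_sdiff hsub).symm
        have h4 : (0 : ℝ) ≤ (w₀ : ℝ) ^ (n + 1) := by positivity
        have h5 : 2 * K₁ * (w₀ : ℝ) ^ (n + 1) ≤ K * (w₀ : ℝ) ^ (n + 1) :=
          mul_le_mul_of_nonneg_right (by linarith) h4
        have h6 : K₁ * (w₀ : ℝ) ^ (n + 1) ≤ K₁ * R := by linarith
        exact le_of_mul_le_mul_left h6 (by linarith)
    have h1 := hfin A' hA'A₁ (by
      rw [hsd]
      refine hlt₀.le.trans ?_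
      exact mul_le_mul_of_nonneg_left hw₀R (by linarith))
    refine ⟨A', hA'A₁.trans hA₁A, ⟨hne A' h1, fun v hv => h1A v (hA₁A (hA'A₁ hv)), fun v hv => ?_,
      fun w hw hlow => ?_⟩, h1⟩
    · have := ((memA₁ v).1 (hA'A₁ hv)).2
      linarith
    · obtain ⟨hwA₁, hw₀w⟩ := (memA' w).1 hw
      obtain ⟨u, hu⟩ := hlow
      rw [mem_low, memA'] at hu
      have hlt : w₀ < w := by omega
      have hwW : w ∉ W := fun h => by
        have := le_max' W w h
        omega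
      have h2 := hnotW w hwA₁ hwW ⟨u, mem_low.2 ⟨hu.1.1, hu.2⟩⟩
      have h3 : low A₁ w = low A₁ w₀ ∪ low A' w := by
        ext v
        rw [mem_union, mem_low, mem_low, mem_low, memA']
        constructor
        · rintro ⟨h4, h5⟩
          rcases lt_or_ge v w₀ with h6 | h6
          · exact Or.inl ⟨h4, h6⟩
          · exact Or.inr ⟨⟨h4, h6⟩, h5⟩
        · rintro (⟨h4, h5⟩ | ⟨⟨h4, h5⟩, h6⟩)
          · exact ⟨h4, by omega⟩
          · exact ⟨h4, h6⟩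
      have h4 : Disjoint (low A₁ w₀) (low A' w) := by
        rw [disjoint_left]
        intro v hv hv'
        rw [mem_low] at hv
        rw [mem_low, memA'] at hv'
        omega
      rw [h3, sum_union h4] at h2
      have h5 : K₁ * (w₀ : ℝ) ^ (n + 1) ≤
          ∑ u ∈ low A' w, (r u : ℝ) * (u : ℝ) ^ (n + 1) := by
        have h6 : w₀ ∈ low A' w := mem_low.2 ⟨(memA' w₀).2 ⟨hw₀A, le_rfl⟩, hlt⟩
        refine le_trans ?_ (single_le_sum
          (f := fun u : ℕ => (r u : ℝ) * (u : ℝ) ^ (n + 1)) (fun u _ => by positivity) h6)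
        have := ((memA₁ w₀).1 hw₀A).2
        gcongr
      have h6 : K₀ * (w : ℝ) ^ (n + 1) = (K₁ * (w : ℝ) ^ (n + 1)) / 2 := by
        rw [hK₁]
        ring
      rw [h6]
      linarith

end Pool.Agent.H295.BG
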